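import Pool.Agent.Helper84.PH.Perms

/-!
# Nearly all families of permutations: a small part of the nodes has nearly all nodes as children
-/

set_option autoImplicit false

namespace Pool.Agent.Helper27.RQ

open Finset
open Pool.Agent.Helper84.PH (into mem_into card_into)

/-- `1 / (4 W)` of the nodes have all but `a` nodes as children. -/
def Spread (D N W a : ℕ) (g : Fin D → Equiv.Perm (Fin N)) : Prop :=
  ∀ X : Finset (Fin N), N ≤ 4 * W * X.card → N ≤ (X.biUnion (fun u => univ.image (fun s => g s u))).card + a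

theorem into_le {N a W : ℕ} (hN : 1 ≤ N) (hW : 1 ≤ W) (X Y : Finset (Fin N)) (hX : N ≤ 4 * W * X.card)
    (hY : Y.card = a) : (4 * W) ^ a * (into Xᶜ Y).card ≤ (4 * W - 1) ^ a * N.factorial := by
  have h1 := card_into Xᶜ Y
  rw [hY] at h1
  have hXc : 4 * W * (Xᶜ).card ≤ (4 * W - 1) * N := by
    have h2 : (Xᶜ).card + X.card = N := by
      rw [card_compl, Fintype.card_fin]
      have : X.card ≤ N := by simpa using card_le_univ X
      omega
    obtain ⟨V, hV⟩ : ∃ V, 4 * W = V + 1 := ⟨4 * W - 1, by omega⟩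
    rw [hV] at hX ⊢
    rw [Nat.add_sub_cancel]
    nlinarith
  have hpos : 0 < N ^ a := Nat.pow_pos hN
  refine Nat.le_of_mul_le_mul_left ?_ hpos
  calc N ^ a * ((4 * W) ^ a * (into Xᶜ Y).card) = (4 * W) ^ a * (N ^ a * (into Xᶜ Y).card) := by ring
    _ ≤ (4 * W) ^ a * ((Xᶜ).card ^ a * N.factorial) := Nat.mul_le_mul_left _ h1
    _ = (4 * W * (Xᶜ).card) ^ a * N.factorial := by rw [mul_pow]; ring
    _ ≤ ((4 * W - 1) * N) ^ a * N.factorial := Nat.mul_le_mul_right _ (Nat.pow_le_pow_left hXc _)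
    _ = N ^ a * ((4 * W - 1) ^ a * N.factorial) := by rw [mul_pow]; ring

theorem eight {W : ℕ} (hW : 1 ≤ W) : 8 * (4 * W - 1) ^ (9 * W) ≤ (4 * W) ^ (9 * W) := by
  have hWR : (0 : ℝ) < W := by exact_mod_cast hW
  have h1 : ((4 * W - 1 : ℕ) : ℝ) = (4 * W) * (1 - 1 / (4 * W)) := by
    rw [Nat.cast_sub (by omega)]
    push_cast
    field_simp
  have h2 : 0 ≤ 1 - 1 / (4 * (W : ℝ)) := by
    have h3 : 1 / (4 * (W : ℝ)) ≤ 1 := by
      rw [div_le_one (by positivity)]
      have : (1 : ℝ) ≤ W := by exact_mod_cast hW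
      linarith
    linarith
  have h3 : (1 - 1 / (4 * (W : ℝ))) ^ (9 * W) ≤ Real.exp (-(9 / 4)) := by
    calc (1 - 1 / (4 * (W : ℝ))) ^ (9 * W) ≤ (Real.exp (-(1 / (4 * (W : ℝ))))) ^ (9 * W) :=
          pow_le_pow_left₀ h2 (by linarith [Real.add_one_le_exp (-(1 / (4 * (W : ℝ))))]) _
      _ = Real.exp (-(9 / 4)) := by
          rw [← Real.exp_nat_mul]
          congr 1
          push_cast
          field_simp
  have h4 : (8 : ℝ) ≤ Real.exp (9 / 4) := by
    have h5 : (8 : ℝ) ^ 4 ≤ Real.exp (9 / 4) ^ 4 := by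
      rw [← Real.exp_nat_mul]
      have h12 : ((4 : ℕ) : ℝ) * (9 / 4) = ((9 : ℕ) : ℝ) * 1 := by norm_num
      rw [h12, Real.exp_nat_mul]
      have h13 := Real.exp_one_gt_d9
      calc (8 : ℝ) ^ 4 ≤ (2.7182818283 : ℝ) ^ 9 := by norm_num
        _ ≤ Real.exp 1 ^ 9 := pow_le_pow_left₀ (by norm_num) h13.le 9
    exact le_of_pow_le_pow_left₀ (by norm_num) (Real.exp_pos _).le h5
  have h6 : (8 : ℝ) * Real.exp (-(9 / 4)) ≤ 1 := by
    rw [Real.exp_neg, ← div_eq_mul_inv, div_le_one (Real.exp_pos _)]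
    exact h4
  have h7 : (8 : ℝ) * ((4 * W - 1 : ℕ) : ℝ) ^ (9 * W) ≤ (4 * (W : ℝ)) ^ (9 * W) := by
    rw [h1, mul_pow]
    have h8 : (0 : ℝ) < (4 * (W : ℝ)) ^ (9 * W) := by positivity
    calc (8 : ℝ) * ((4 * (W : ℝ)) ^ (9 * W) * (1 - 1 / (4 * W)) ^ (9 * W))
        = (4 * (W : ℝ)) ^ (9 * W) * (8 * (1 - 1 / (4 * W)) ^ (9 * W)) := by ring
      _ ≤ (4 * (W : ℝ)) ^ (9 * W) * (8 * Real.exp (-(9 / 4))) := by gcongr
      _ ≤ (4 * (W : ℝ)) ^ (9 * W) * 1 := by gcongr
      _ = _ := mul_one _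
  exact_mod_cast h7

/-- Nearly all families of permutations: the exceptions are a part `2 ^ (-N)`, `N = M ^ 2 * a` the number of nodes. -/
theorem most_perms (M a W : ℕ) (hM : 1 ≤ M) (ha : 1 ≤ a) (hW : 1 ≤ W) :
    2 ^ (M ^ 2 * a) * Nat.card {g : Fin (9 * M ^ 2 * W) → Equiv.Perm (Fin (M ^ 2 * a)) //
        ¬ Spread (9 * M ^ 2 * W) (M ^ 2 * a) W a g} ≤
      Nat.card (Fin (9 * M ^ 2 * W) → Equiv.Perm (Fin (M ^ 2 * a))) := by
  classical
  set N := M ^ 2 * a with hN
  have hM2 : 1 ≤ M ^ 2 := Nat.one_le_pow _ _ hM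
  have hNpos : 1 ≤ N := Nat.mul_pos hM2 ha
  set D := 9 * M ^ 2 * W with hD
  set I : Finset (Finset (Fin N) × Finset (Fin N)) := univ.filter (fun p => N ≤ 4 * W * p.1.card ∧ p.2.card = a)
    with hI
  have hu : Nat.card (Fin D → Equiv.Perm (Fin N)) = N.factorial ^ D := by
    rw [Nat.card_eq_fintype_card, Fintype.card_fun, Fintype.card_perm, Fintype.card_fin, Fintype.card_fin]
  have hbad : Nat.card {g : Fin D → Equiv.Perm (Fin N) // ¬ Spread D N W a g} ≤
      (I.biUnion (fun p => Fintype.piFinset (fun _ : Fin D => into (p.1)ᶜ p.2))).card := by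
    rw [← Fintype.card_coe, ← Nat.card_eq_fintype_card]
    refine Nat.card_le_card_of_injective (fun g => ⟨fun s => (g.1 s)⁻¹, ?_⟩) ?_
    · have hg := g.2
      unfold Spread at hg
      push Not at hg
      obtain ⟨X, hX, hlt⟩ := hg
      set U := X.biUnion (fun u => univ.image (fun s => g.1 s u)) with hU
      have hUc : a ≤ (Uᶜ).card := by
        rw [card_compl, Fintype.card_fin]
        omega
      obtain ⟨Y, hY, hYc⟩ := exists_subset_card_eq hUc
      rw [mem_biUnion]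
      refine ⟨(X, Y), mem_filter.2 ⟨mem_univ _, hX, hYc⟩, ?_⟩
      rw [Fintype.mem_piFinset]
      intro s
      refine mem_into.2 fun y hy => mem_compl.2 fun h => ?_
      refine mem_compl.1 (hY hy) (mem_biUnion.2 ⟨(g.1 s)⁻¹ y, h, mem_image.2 ⟨s, mem_univ _, ?_⟩⟩)
      simp
    · intro g g' h
      apply Subtype.ext
      funext s
      have h1 := congrFun (Subtype.mk.inj h) s
      exact inv_injective h1
  have h1 := hbad.trans card_biUnion_le
  have h2 : (4 * W) ^ (a * D) * Nat.card {g : Fin D → Equiv.Perm (Fin N) // ¬ Spread D N W a g} ≤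
      4 ^ N * ((4 * W - 1) ^ (a * D) * N.factorial ^ D) := by
    calc (4 * W) ^ (a * D) * Nat.card {g : Fin D → Equiv.Perm (Fin N) // ¬ Spread D N W a g}
        ≤ (4 * W) ^ (a * D) * ∑ p ∈ I, (Fintype.piFinset (fun _ : Fin D => into (p.1)ᶜ p.2)).card :=
          Nat.mul_le_mul_left _ h1
      _ = ∑ p ∈ I, (4 * W) ^ (a * D) * (Fintype.piFinset (fun _ : Fin D => into (p.1)ᶜ p.2)).card := by rw [mul_sum]
      _ ≤ ∑ _p ∈ I, (4 * W - 1) ^ (a * D) * N.factorial ^ D := by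
          refine sum_le_sum fun p hp => ?_
          obtain ⟨-, h5, h6⟩ := mem_filter.1 hp
          rw [Fintype.card_piFinset]
          simp only [prod_const, card_univ, Fintype.card_fin]
          calc (4 * W) ^ (a * D) * (into (p.1)ᶜ p.2).card ^ D = ((4 * W) ^ a * (into (p.1)ᶜ p.2).card) ^ D := by
                rw [mul_pow ((4 * W) ^ a), ← pow_mul]
            _ ≤ ((4 * W - 1) ^ a * N.factorial) ^ D := Nat.pow_le_pow_left (into_le hNpos hW p.1 p.2 h5 h6) _
            _ = (4 * W - 1) ^ (a * D) * N.factorial ^ D := by rw [mul_pow ((4 * W - 1) ^ a), ← pow_mul]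
      _ = I.card * ((4 * W - 1) ^ (a * D) * N.factorial ^ D) := by rw [sum_const, smul_eq_mul]
      _ ≤ 4 ^ N * ((4 * W - 1) ^ (a * D) * N.factorial ^ D) := by
          refine Nat.mul_le_mul_right _ ?_
          calc I.card ≤ Fintype.card (Finset (Fin N) × Finset (Fin N)) := card_le_univ _
            _ = 4 ^ N := by
                rw [Fintype.card_prod, Fintype.card_finset, Fintype.card_fin, ← mul_pow]
                norm_num
  have h3 : a * D = 9 * W * N := by rw [hD, hN]; ring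
  have h4 : 8 ^ N * (4 * W - 1) ^ (a * D) ≤ (4 * W) ^ (a * D) := by
    rw [h3, pow_mul (4 * W - 1) (9 * W) N, pow_mul (4 * W) (9 * W) N, ← mul_pow]
    exact Nat.pow_le_pow_left (eight hW) N
  have hpos : 0 < (4 * W) ^ (a * D) := Nat.pow_pos (by omega)
  refine Nat.le_of_mul_le_mul_left ?_ hpos
  rw [hu]
  calc (4 * W) ^ (a * D) * (2 ^ N * Nat.card {g : Fin D → Equiv.Perm (Fin N) // ¬ Spread D N W a g})
      = 2 ^ N * ((4 * W) ^ (a * D) * Nat.card {g : Fin D → Equiv.Perm (Fin N) // ¬ Spread D N W a g}) := by ring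
    _ ≤ 2 ^ N * (4 ^ N * ((4 * W - 1) ^ (a * D) * N.factorial ^ D)) := Nat.mul_le_mul_left _ h2
    _ = (8 ^ N * (4 * W - 1) ^ (a * D)) * N.factorial ^ D := by
        have : (8 : ℕ) ^ N = 2 ^ N * 4 ^ N := by
          rw [← mul_pow 2 4 N]
          norm_num
        rw [this]
        ring
    _ ≤ (4 * W) ^ (a * D) * N.factorial ^ D := Nat.mul_le_mul_right _ h4

end Pool.Agent.Helper27.RQ
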